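import Mathlib.ModelTheory.Ultraproducts
import Mathlib.Order.Filter.Ultrafilter.Defs
import Mathlib.Tactic

/-!
Ultrapowers over a non-principal ultrafilter on the natural numbers.
-/

namespace H968

open FirstOrder FirstOrder.Language Filter

/-- The ultrafilter. -/
noncomputable abbrev hyp : Ultrafilter ℕ := hyperfilter ℕ

/-- The ultrapower. -/
abbrev Ult (M : Type) : Type := (hyp : Filter ℕ).Product (fun _ => M)

/-- The class of a sequence. -/
noncomputable def cls {M : Type} (f : ℕ → M) : Ult M := Quotient.mk'' f

end H968
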