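import Pool.Agent.helper968_kim.Defs
import Pool.Agent.helper968_kim.Ult

/-!
Ultrapowers over the hyperfilter on the natural numbers are saturated for countable sets of
parameters.
-/

namespace H968

open FirstOrder FirstOrder.Language Filter Cardinal SKF

/-- TARGET 1 -/
theorem diag_choice {W : Type} [Nonempty W] (P : ℕ → ℕ → W → Prop)
    (h : ∀ k, ∀ᶠ i in (hyp : Filter ℕ), ∃ w, ∀ j ≤ k, P j i w) :
    ∃ w : ℕ → W, ∀ k, ∀ᶠ i in (hyp : Filter ℕ), P k i (w i) := by
  classical
  set K : ℕ → ℕ := fun i => Nat.findGreatest (fun k => ∃ w, ∀ j ≤ k, P j i w) i with hK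
  refine ⟨fun i => if hi : ∃ w, ∀ j ≤ K i, P j i w then hi.choose else Classical.arbitrary W,
    fun k => ?_⟩
  have h1 : ∀ᶠ i in (hyp : Filter ℕ), k ≤ i :=
    (eventually_ge_atTop k).filter_mono Nat.hyperfilter_le_atTop
  filter_upwards [h1, h k] with i hki hw
  have h2 : ∃ w, ∀ j ≤ K i, P j i w :=
    Nat.findGreatest_spec (P := fun k => ∃ w, ∀ j ≤ k, P j i w) hki hw
  have h3 : k ≤ K i := Nat.le_findGreatest hki hw
  rw [dif_pos h2]
  exact h2.choose_spec k h3

theorem cls_surj_sat {N : Type} (x : Ult N) : ∃ f : ℕ → N, cls f = x := by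
  obtain ⟨f, hf⟩ := Quotient.exists_rep x
  exact ⟨f, hf⟩

theorem holds_iff (L : FirstOrder.Language.{0, 0}) (N : Type) [L.Structure N] [Nonempty N]
    {n : ℕ} (ψ : Fml L n (Ult N)) (r : Fin ψ.len → ℕ → N) (hr : ∀ t, cls (r t) = ψ.par t)
    (a : Fin n → ℕ → N) :
    ψ.Holds (fun t => cls (a t)) ↔
      ∀ᶠ i in (hyp : Filter ℕ), ψ.form.Realize (Sum.elim (fun t => a t i) fun t => r t i) := by
  have h1 := FirstOrder.Language.Ultraproduct.realize_formula_cast (u := hyp)
    (M := fun _ : ℕ => N) ψ.form (Sum.elim a r)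
  have e1 : Sum.elim (fun t => cls (a t)) ψ.par =
      fun i => ((Sum.elim a r i : ℕ → N) : (hyp : Filter ℕ).Product (fun _ => N)) := by
    funext i
    rcases i with t | t
    · rfl
    · exact (hr t).symm
  unfold Fml.Holds
  rw [e1]
  refine h1.trans ?_
  have e2 : ∀ i : ℕ, (fun t => Sum.elim a r t i) = Sum.elim (fun t => a t i) fun t => r t i := by
    intro i
    funext t
    rcases t with t | t <;> rfl
  simp only [e2]

theorem over_countable (L : FirstOrder.Language.{0, 0}) [Countable (Σ n, L.Functions n)]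
    [Countable (Σ n, L.Relations n)] {U : Type} {A : Set U} (hA : A.Countable) (n : ℕ) :
    {ψ : Fml L n U | ψ.Over A}.Countable := by
  have hAc : Countable A := hA.to_subtype
  have hS : Countable L.Symbols := inferInstanceAs (Countable ((Σ l, L.Functions l) ⊕ (Σ l, L.Relations l)))
  set F : (Σ k : ℕ, L.Formula (Fin n ⊕ Fin k) × (Fin k → A)) → Fml L n U :=
    fun x => ⟨x.1, x.2.1, fun t => (x.2.2 t : U)⟩ with hF
  refine (Set.countable_range F).mono ?_
  intro ψ hψ
  exact ⟨⟨ψ.len, ψ.form, fun t => ⟨ψ.par t, hψ t⟩⟩, rfl⟩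

/-- TARGET 2 -/
theorem ult_saturated (L : FirstOrder.Language.{0, 0}) [Countable (Σ n, L.Functions n)]
    [Countable (Σ n, L.Relations n)] (N : Type) [L.Structure N] [Nonempty N] :
    IsSaturated L ℵ₁ (Ult N) := by
  intro A hA n p hp hfin
  have hAc : A.Countable := le_aleph0_iff_set_countable.mp (lt_aleph_one_iff.mp hA)
  have hpc : p.Countable := (over_countable L hAc n).mono hp
  rcases p.eq_empty_or_nonempty with h0 | h0
  · refine ⟨fun _ => cls fun _ => Classical.arbitrary N, fun ψ hψ => ?_⟩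
    rw [h0] at hψ
    exact hψ.elim
  obtain ⟨f, hf⟩ := hpc.exists_eq_range h0
  have hrep : ∀ k, ∃ r : Fin (f k).len → ℕ → N, ∀ t, cls (r t) = (f k).par t := by
    intro k
    choose r hr using fun t => cls_surj_sat ((f k).par t)
    exact ⟨r, hr⟩
  choose r hr using hrep
  obtain ⟨w, hw⟩ := diag_choice (W := Fin n → N)
    (fun j i w => (f j).form.Realize (Sum.elim w fun t => r j t i)) (by
      intro k
      obtain ⟨a, ha⟩ := hfin (f '' Set.Iic k) ((Set.finite_Iic k).image f) (by
        rintro _ ⟨j, _, rfl⟩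
        rw [hf]
        exact ⟨j, rfl⟩)
      choose b hb using fun t => cls_surj_sat (a t)
      have hab : a = fun t => cls (b t) := funext fun t => (hb t).symm
      have h1 : ∀ j ∈ Set.Iic k, ∀ᶠ i in (hyp : Filter ℕ),
          (f j).form.Realize (Sum.elim (fun t => b t i) fun t => r j t i) := by
        intro j hj
        rw [← holds_iff L N (f j) (r j) (hr j) b, ← hab]
        exact ha _ ⟨j, hj, rfl⟩
      have h2 := (eventually_all_finite (Set.finite_Iic k)).mpr h1
      filter_upwards [h2] with i hi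
      exact ⟨fun t => b t i, fun j hj => hi j hj⟩)
  refine ⟨fun t => cls fun i => w i t, fun ψ hψ => ?_⟩
  rw [hf] at hψ
  obtain ⟨k, rfl⟩ := hψ
  rw [holds_iff L N (f k) (r k) (hr k) fun t i => w i t]
  exact hw k

end H968
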