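import Mathlib.ModelTheory.Satisfiability
import Mathlib.ModelTheory.ElementarySubstructures
import Mathlib.SetTheory.Cardinal.Aleph

/-!
Definitions used in the statement about stable Kim-forking.

`U` is thought of as a monster model: a `κ`-saturated model for an uncountable `κ`; `small` means
of cardinality less than `κ`.
-/

namespace SKF

open FirstOrder FirstOrder.Language Cardinal

/-- A formula `φ(x, c)` with parameters: `form` is a formula without parameters in the variables
`x = (x_i)_{i < n}` and `z = (z_i)_{i < len}`, and `par = c` is a tuple of elements of `U`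
substituted for `z`. -/
structure Fml (L : FirstOrder.Language.{0, 0}) (n : ℕ) (U : Type) where
  len : ℕ
  form : L.Formula (Fin n ⊕ Fin len)
  par : Fin len → U

variable {L : FirstOrder.Language.{0, 0}} {U : Type} [L.Structure U] {n : ℕ}

/-- The tuple `a` satisfies `φ(x, c)` in `U`. -/
def Fml.Holds (ψ : Fml L n U) (a : Fin n → U) : Prop := ψ.form.Realize (Sum.elim a ψ.par)

omit [L.Structure U] in
/-- The parameters of `φ(x, c)` lie in `A`. -/
def Fml.Over (ψ : Fml L n U) (A : Set U) : Prop := ∀ i, ψ.par i ∈ A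

omit [L.Structure U] in
/-- The negation of `φ(x, c)`. -/
def Fml.neg (ψ : Fml L n U) : Fml L n U := ⟨ψ.len, ψ.form.not, ψ.par⟩

/-- A set of formulas with parameters is consistent: each finite subset is satisfied in `U`. -/
def FinSat (p : Set (Fml L n U)) : Prop :=
  ∀ s : Set (Fml L n U), s.Finite → s ⊆ p → ∃ a : Fin n → U, ∀ ψ ∈ s, ψ.Holds a

/-- `U` is `κ`-saturated: each consistent set of formulas in finitely many variables over fewer
than `κ` parameters is realised in `U`. -/
def IsSaturated (L : FirstOrder.Language.{0, 0}) (κ : Cardinal.{0}) (U : Type)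
    [L.Structure U] : Prop :=
  ∀ A : Set U, #A < κ → ∀ (n : ℕ) (p : Set (Fml L n U)), (∀ ψ ∈ p, ψ.Over A) → FinSat p →
    ∃ a : Fin n → U, ∀ ψ ∈ p, ψ.Holds a

/-- `p ∈ S_n(B)`: `p` is a complete type over `B` in the variables `(x_i)_{i < n}`. -/
structure IsTypeOver (B : Set U) (p : Set (Fml L n U)) : Prop where
  par_mem : ∀ ψ ∈ p, ψ.Over B
  finSat : FinSat p
  complete : ∀ ψ : Fml L n U, ψ.Over B → ψ ∈ p ∨ ψ.neg ∈ p

/-- The tuples `c` and `c'` have the same type over `M`. -/
def SameType (L : FirstOrder.Language.{0, 0}) [L.Structure U] (M : Set U) {k : ℕ}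
    (c c' : Fin k → U) : Prop :=
  ∀ ψ : Fml L k U, ψ.Over M → (ψ.Holds c ↔ ψ.Holds c')

/-- `q` is a global `M`-invariant type. -/
structure IsInvariantType (M : Set U) (q : Set (Fml L n U)) : Prop where
  isType : IsTypeOver Set.univ q
  invariant : ∀ (k : ℕ) (φ : L.Formula (Fin n ⊕ Fin k)) (c c' : Fin k → U), SameType L M c c' →
    ((⟨k, φ, c⟩ : Fml L n U) ∈ q ↔ (⟨k, φ, c'⟩ : Fml L n U) ∈ q)

/-- `(b_i)_{i < ω}` is a Morley sequence in `q` over `M`: `b_i` realises the restriction of `q` to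
`M b_{< i}`. -/
def IsMorley (M : Set U) (q : Set (Fml L n U)) (b : ℕ → Fin n → U) : Prop :=
  ∀ i, ∀ ψ ∈ q, ψ.Over (M ∪ {u | ∃ j < i, ∃ t, u = b j t}) → ψ.Holds (b i)

/-- The formula `φ(x, c)` Kim-divides over `M`: for some global `M`-invariant type `q` extending
`tp(c / M)` and some Morley sequence `(b_i)` in `q` over `M` the set `{φ(x, b_i)}` is
inconsistent. -/
def KimDivides (M : Set U) (ψ : Fml L n U) : Prop :=
  ∃ q : Set (Fml L ψ.len U), IsInvariantType M q ∧
    (∀ θ : Fml L ψ.len U, θ.Over M → θ.Holds ψ.par → θ ∈ q) ∧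
    ∃ b : ℕ → Fin ψ.len → U, IsMorley M q b ∧
      ¬ FinSat (Set.range fun i => (⟨ψ.len, ψ.form, b i⟩ : Fml L n U))

/-- The formula `φ(x, c)` Kim-forks over `M`: it implies a finite disjunction of formulas each of
which Kim-divides over `M`. -/
def KimForks (M : Set U) (ψ : Fml L n U) : Prop :=
  ∃ s : Set (Fml L n U), s.Finite ∧ (∀ θ ∈ s, KimDivides M θ) ∧
    ∀ a : Fin n → U, ψ.Holds a → ∃ θ ∈ s, θ.Holds a

omit [L.Structure U] in
/-- For a formula `φ(x, y, z)` and tuples `b`, `m`, the formula `φ(x, b, m)`. -/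
def inst {l k : ℕ} (φ : L.Formula (Fin n ⊕ (Fin l ⊕ Fin k))) (b : Fin l → U) (m : Fin k → U) :
    Fml L n U :=
  ⟨l + k, φ.relabel (Sum.map id finSumFinEquiv), Sum.elim b m ∘ finSumFinEquiv.symm⟩

/-- The formula `φ(x, y, m)` in `x`, `y` with parameters `m` is stable: there are no sequences
`(a_i)`, `(b_i)` with `φ(a_i, b_j, m)` if and only if `i < j`. -/
def IsStable {l k : ℕ} (φ : L.Formula (Fin n ⊕ (Fin l ⊕ Fin k))) (m : Fin k → U) : Prop :=
  ¬ ∃ (a : ℕ → Fin n → U) (b : ℕ → Fin l → U), ∀ i j : ℕ, (inst φ (b j) m).Holds (a i) ↔ i < j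

/-- The stable Kim-forking property over models, evaluated in `U` (`small` means of cardinality
less than `κ`). -/
def StableKimForkingIn (L : FirstOrder.Language.{0, 0}) (κ : Cardinal.{0}) (U : Type)
    [L.Structure U] : Prop :=
  ∀ M : L.ElementarySubstructure U, #M < κ → ∀ B : Set U, (M : Set U) ⊆ B → #B < κ →
    ∀ (n : ℕ) (p : Set (Fml L n U)), IsTypeOver B p → (∃ ψ ∈ p, KimForks (M : Set U) ψ) →
      ∃ (l k : ℕ) (φ : L.Formula (Fin n ⊕ (Fin l ⊕ Fin k))) (b : Fin l → U) (m : Fin k → U),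
        (∀ i, b i ∈ B) ∧ (∀ i, m i ∈ M) ∧ IsStable φ m ∧ inst φ b m ∈ p ∧
          KimForks (M : Set U) (inst φ b m)

/-- `U` is a `κ`-monster model of `T`: a `κ`-saturated model of `T`, where `κ` is uncountable and
larger than the cardinality of the language. -/
structure IsMonster (T : L.Theory) (κ : Cardinal.{0}) (U : Type) [L.Structure U] : Prop where
  model : U ⊨ T
  uncountable : ℵ₀ < κ
  card_lt : L.card < κ
  saturated : IsSaturated L κ U

/-- `T` has SOP₁, witnessed by `φ(x, y)` and parameters `(b_η)`, `η ∈ 2^{<ω}`, in a model `N`. -/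
def HasSOP1 (T : L.Theory) : Prop :=
  ∃ (N : Type) (_ : L.Structure N) (_ : N ⊨ T) (k l : ℕ) (φ : L.Formula (Fin k ⊕ Fin l))
    (b : List Bool → Fin l → N),
    (∀ (σ : ℕ → Bool) (m : ℕ), ∃ a : Fin k → N, ∀ i < m,
      φ.Realize (Sum.elim a (b (List.ofFn fun t : Fin i => σ t)))) ∧
    (∀ η ν : List Bool, (η ++ [false]) <+: ν →
      ¬ ∃ a : Fin k → N, φ.Realize (Sum.elim a (b (η ++ [true]))) ∧
        φ.Realize (Sum.elim a (b ν)))

/-- `T` is NSOP₁. -/
def NSOP1 (T : L.Theory) : Prop := ¬ HasSOP1 T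

end SKF
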